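import Pool.Agent.R256.EM8

/-!
# An inequality for the expected maximum of independent exponentials: valid exactly for n ≤ 6

For positive `a_1,…,a_n` let `S_n(a) = Σ_{∅≠J} (-1)^{|J|+1} / Σ_{j∈J} a_j`.
We prove that `(Σ a_i^{-2})^{1/2} ≤ S_n(a)` for all positive `a` if and only if `n ≤ 6`.

Idea: minimise `S_n` over `Σ a_i^{-2} = 1`.  At an interior minimiser all numbers
`h(a_i)` agree, where `h(x) = x³ ∫_0^∞ t ∏_k(1-e^{-a_k t})/(e^{xt}-1) dt`; the function `h` is
strictly unimodal (total positivity), so the minimiser has at most two different coordinates;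
for these the inequality is a one-variable polynomial inequality with nonnegative coefficients.
-/

namespace Pool.Agent.Results.MP_2ee812_an.ExpectedMaximum

open Finset

/-- `S_n(a_1,…,a_n) = Σ_{∅≠J⊆{1,…,n}} (-1)^{|J|+1} (Σ_{j∈J} a_j)⁻¹`. -/
noncomputable def S (n : ℕ) (a : Fin n → ℝ) : ℝ :=
  ∑ J ∈ (Finset.univ : Finset (Finset (Fin n))).filter (fun J => J.Nonempty),
    (-1 : ℝ) ^ (J.card + 1) * (∑ j ∈ J, a j)⁻¹

/-- The inequality `(∗)` is valid for `n`. -/
def Valid (n : ℕ) : Prop :=
  ∀ a : Fin n → ℝ, (∀ i, 0 < a i) → Real.sqrt (∑ i, (a i ^ 2)⁻¹) ≤ S n a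

lemma S_eq (n : ℕ) (a : Fin n → ℝ) : S n a = R256.ExpMax.T Finset.univ a := by
  unfold S R256.ExpMax.T
  rw [Finset.powerset_univ, ← Finset.sum_neg_distrib, Finset.sum_filter]
  apply Finset.sum_congr rfl
  intro J _
  split_ifs with h
  · ring
  · rw [Finset.not_nonempty_iff_eq_empty] at h
    subst h
    simp

/-- The inequality `(∗)` is valid for `n` if and only if `n ≤ 6`. -/
theorem result (n : ℕ) (_hn : 1 ≤ n) : Valid n ↔ n ≤ 6 := by
  constructor
  · intro hv
    by_contra hcon
    push Not at hcon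
    have h1 := hv (fun _ => 1) (fun _ => one_pos)
    rw [S_eq, R256.ExpMax.T_one] at h1
    have h2 := R256.ExpMax.harm_lt n (by omega)
    simp only [one_pow, inv_one, Finset.sum_const, Finset.card_univ, Fintype.card_fin,
      nsmul_eq_mul, mul_one] at h1
    linarith
  · intro hn a ha
    rw [S_eq]
    apply Real.sqrt_le_iff.mpr
    exact ⟨R256.ExpMax.T_nonneg _ ha,
      R256.ExpMax.main_ineq Finset.univ (by simpa using hn) a ha⟩

end Pool.Agent.Results.MP_2ee812_an.ExpectedMaximum
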