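import Pool.Agent.R226.EME

/-!
MP_2ee812_an, Q1 (complete answer).

The inequality `(∑ a_i^{-2})^{1/2} ≤ S_n(a_1, ..., a_n)` holds for all positive `a_1, ..., a_n`
if and only if `n ≤ 6`.

Idea of the proof for `n ≤ 6`. After extending to the boundary, the homogeneous quotient
`S^2 / ∑ a_i^{-2}` has a minimizer on a compact set of directions `u = 1/a`; on the face of the
nonzero coordinates the minimizer is critical, which says that
`a_i^3 ∂S/∂a_i` takes the same value for all `i`. Now `-a_i^3 ∂S/∂a_i = N(β_i)/β_i` with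
`β_i = 1/a_i`, `N(β) = ∫_0^∞ v/(e^v - 1) ∏_j (1 - e^{-a_j β v}) dv`, and the function `N(β)/β`
takes no value three times: its critical points are zeros of `∫ w(t/β) Θ(t) dt`,
`w(v) = v/(e^v - 1)`, `Θ = t P' - P`, where `Θ` has exactly one sign change and the ratio
`w(x₁ t)/w(x₂ t)` is strictly monotone. So at most two different rates occur and the inequality
becomes a finite list of two-variable polynomial inequalities. For `n ≥ 7` equal rates give a
counterexample.
-/

namespace Pool.Agent.Results.MP_2ee812_an.ValidIffAtMostSix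

open Pool.Agent.R226.EM

/-- The sum `S_n(a_1, ..., a_n)` over the nonempty subsets `J` of the index set. -/
noncomputable def S (n : ℕ) (a : Fin n → ℝ) : ℝ :=
  ∑ J ∈ Finset.univ.filter (fun J : Finset (Fin n) => J.Nonempty),
    (-1 : ℝ) ^ (J.card + 1) * (∑ j ∈ J, a j)⁻¹

/-- `(∗)` is valid for `n`. -/
def Valid (n : ℕ) : Prop :=
  ∀ a : Fin n → ℝ, (∀ i, 0 < a i) → Real.sqrt (∑ i, (a i ^ 2)⁻¹) ≤ S n a

lemma S_eq (n : ℕ) (a : Fin n → ℝ) : S n a = SS Finset.univ a := by
  unfold S SS
  rw [Finset.powerset_univ]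
  apply Finset.sum_subset (Finset.filter_subset _ _)
  intro J _ hJ
  have : J = ∅ := by
    by_contra h
    exact hJ (Finset.mem_filter.mpr ⟨Finset.mem_univ _, Finset.nonempty_iff_ne_empty.mpr h⟩)
  subst this
  simp

/-- The inequality `(∗)` is valid exactly for `n ≤ 6`. -/
theorem result (n : ℕ) (hn : 1 ≤ n) : Valid n ↔ n ≤ 6 := by
  constructor
  · intro h
    by_contra hlt
    have h7 : 7 ≤ n := by omega
    have h1 := h (fun _ => 1) (fun _ => one_pos)
    rw [S_eq, SS_ones] at h1
    have h2 := harm_lt n h7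
    simp only [one_pow, inv_one, Finset.sum_const, Finset.card_univ, Fintype.card_fin,
      nsmul_eq_mul, mul_one] at h1
    have h3 : (Real.sqrt n) ^ 2 = n := Real.sq_sqrt (Nat.cast_nonneg n)
    have h4 : (Real.sqrt n) ^ 2 ≤ (∑ i ∈ Finset.range n, ((i : ℝ) + 1)⁻¹) ^ 2 :=
      pow_le_pow_left₀ (Real.sqrt_nonneg _) h1 2
    linarith
  · intro h6 a ha
    rw [S_eq]
    apply Real.sqrt_le_iff.mpr
    exact ⟨SS_nonneg (fun i _ => ha i), main_le (Fintype.card_fin n) h6 hn a ha⟩

end Pool.Agent.Results.MP_2ee812_an.ValidIffAtMostSix
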